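import Pool.Agent.W680.WH.Stm

/-!
# WHH-NH: the operator is not similar to a homogeneous operator
-/

set_option autoImplicit false

open scoped ComplexConjugate InnerProductSpace
open ContinuousLinearMap Filter

namespace Pool.Agent.W202.WH.NH

open Pool.Agent.W680.WH

section alg

variable {A : Type*} [Ring A] [Algebra ℂ A]

lemma alg_z (z u g : A) (r : ℂ) (hu : u = 1 - r • z) (h1 : u * g = 1) (h2 : g * u = 1) :
    (z - r • 1) * g = g * (z - r • 1) := by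
  have h3 : u * (z - r • (1 : A)) = (z - r • 1) * u := by
    rw [hu]
    simp only [mul_sub, sub_mul, one_mul, mul_one, smul_mul_assoc, mul_smul_comm]
    module
  calc (z - r • 1) * g = (g * u) * (z - r • 1) * g := by rw [h2, one_mul]
    _ = g * (u * (z - r • 1)) * g := by simp only [mul_assoc]
    _ = g * (z - r • 1) * (u * g) := by rw [h3]; simp only [mul_assoc]
    _ = g * (z - r • 1) := by rw [h1, mul_one]

lemma alg_comm (z b u g : A) (r : ℂ) (hu : u = 1 - r • z) (h1 : u * g = 1) (h2 : g * u = 1) :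
    (z - r • 1) * g * b - b * ((z - r • 1) * g) = (1 - r ^ 2) • (g * (z * b - b * z) * g) := by
  have h3 : (z - r • 1) * b * u - u * b * (z - r • 1) = (1 - r ^ 2) • (z * b - b * z) := by
    rw [hu]
    simp only [mul_sub, sub_mul, one_mul, mul_one, smul_mul_assoc, mul_smul_comm, mul_assoc]
    module
  have h4 : g * (z * b - b * z) * g * (1 : A) = g * (z * b - b * z) * g := mul_one _
  calc (z - r • 1) * g * b - b * ((z - r • 1) * g)
      = g * (z - r • 1) * b * (u * g) - (g * u) * b * ((z - r • 1) * g) := by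
        rw [h1, h2, alg_z z u g r hu h1 h2, mul_one, one_mul]
    _ = g * ((z - r • 1) * b * u - u * b * (z - r • 1)) * g := by
        simp only [mul_sub, sub_mul, mul_assoc]
    _ = (1 - r ^ 2) • (g * (z * b - b * z) * g) := by
        rw [h3, mul_smul_comm, smul_mul_assoc]

omit [Algebra ℂ A] in
/-- from the two entries of the intertwining relation -/
lemma alg_key (z x b w c fz f12 : A) (h1 : w * fz = z * w)
    (h2 : w * f12 + c * fz = z * c + x * w) (hc : c = b * w - w * b) :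
    w * (f12 + (fz * b - b * fz)) = (x + z * b - b * z) * w := by
  have h3 : w * f12 = z * c + x * w - c * fz := by rw [← h2]; abel
  rw [mul_add, h3, hc]
  have e1 : w * (fz * b - b * fz) = z * w * b - w * b * fz := by
    rw [mul_sub, ← mul_assoc, h1, ← mul_assoc]
  have e2 : (b * w - w * b) * fz = b * z * w - w * b * fz := by
    rw [sub_mul, mul_assoc b w fz, h1, ← mul_assoc]
  rw [e1, e2]
  simp only [mul_sub, sub_mul, add_mul, ← mul_assoc]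
  abel

/-- conjugation by a unit commuting with `z` -/
lemma alg_conj (z y w g : A) (F : Aˣ) (r s : ℂ) (hF : (F : A) * z = z * F)
    (h1 : (1 - r • z) * g = 1) (h2 : g * (1 - r • z) = 1)
    (hw : w * ((z - r • 1) * g) = z * w) (hy : w * (s • (g * y * g)) = y * w) :
    (((F⁻¹ : Aˣ) : A) * w * F) * ((z - r • 1) * g) = z * (((F⁻¹ : Aˣ) : A) * w * F) ∧
    (((F⁻¹ : Aˣ) : A) * w * F) * (s • (g * (((F⁻¹ : Aˣ) : A) * y * F) * g)) =
      (((F⁻¹ : Aˣ) : A) * y * F) * (((F⁻¹ : Aˣ) : A) * w * F) := by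
  have hz : Commute (F : A) z := hF
  have hu : Commute (F : A) (1 - r • z) := (Commute.one_right _).sub_right (hz.smul_right r)
  have hg : Commute (F : A) g := by
    have h3 : (F : A) * (1 - r • z) = (1 - r • z) * F := hu
    show (F : A) * g = g * F
    calc (F : A) * g = (g * (1 - r • z)) * F * g := by rw [h2, one_mul]
      _ = g * ((1 - r • z) * F) * g := by simp only [mul_assoc]
      _ = g * F * ((1 - r • z) * g) := by rw [← h3]; simp only [mul_assoc]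
      _ = g * F := by rw [h1, mul_one]
  have hzi : Commute (((F⁻¹ : Aˣ) : A)) z := hz.units_inv_left
  have hgi : Commute (((F⁻¹ : Aˣ) : A)) g := hg.units_inv_left
  have hfz : Commute (F : A) ((z - r • 1) * g) :=
    ((hz.sub_right ((Commute.one_right _).smul_right r))).mul_right hg
  constructor
  · calc (((F⁻¹ : Aˣ) : A) * w * F) * ((z - r • 1) * g)
        = ((F⁻¹ : Aˣ) : A) * w * (F * ((z - r • 1) * g)) := by simp only [mul_assoc]
      _ = ((F⁻¹ : Aˣ) : A) * (w * ((z - r • 1) * g)) * F := by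
          rw [hfz.eq]; simp only [mul_assoc]
      _ = (((F⁻¹ : Aˣ) : A) * z) * w * F := by rw [hw]; simp only [mul_assoc]
      _ = z * (((F⁻¹ : Aˣ) : A) * w * F) := by rw [hzi.eq]; simp only [mul_assoc]
  · have e1 : g * (((F⁻¹ : Aˣ) : A) * y * F) * g = ((F⁻¹ : Aˣ) : A) * (g * y * g) * F := by
      calc g * (((F⁻¹ : Aˣ) : A) * y * F) * g
          = (g * ((F⁻¹ : Aˣ) : A)) * y * (F * g) := by simp only [mul_assoc]
        _ = ((F⁻¹ : Aˣ) : A) * (g * y * g) * F := by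
            rw [← hgi.eq, hg.eq]; simp only [mul_assoc]
    have e2 : s • (((F⁻¹ : Aˣ) : A) * (g * y * g) * F) =
        ((F⁻¹ : Aˣ) : A) * (s • (g * y * g)) * F := by
      rw [mul_smul_comm, smul_mul_assoc]
    rw [e1, e2]
    calc (((F⁻¹ : Aˣ) : A) * w * F) * (((F⁻¹ : Aˣ) : A) * (s • (g * y * g)) * F)
        = ((F⁻¹ : Aˣ) : A) * w * ((F : A) * ((F⁻¹ : Aˣ) : A)) * (s • (g * y * g)) * F := by
          simp only [mul_assoc]
      _ = ((F⁻¹ : Aˣ) : A) * (w * (s • (g * y * g))) * F := by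
          rw [Units.mul_inv, mul_one]; simp only [mul_assoc]
      _ = ((F⁻¹ : Aˣ) : A) * y * ((F : A) * ((F⁻¹ : Aˣ) : A)) * w * F := by
          rw [hy, Units.mul_inv, mul_one]; simp only [mul_assoc]
      _ = (((F⁻¹ : Aˣ) : A) * y * F) * (((F⁻¹ : Aˣ) : A) * w * F) := by
          simp only [mul_assoc]

end alg

section gen

variable {M : Type*} [Monoid M]

lemma mon1 (s u us si t f : M) (h2 : u * us = 1)
    (h4 : si * s = 1) (h : s * f * si = us * (s * t * si) * u) :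
    (si * u * s) * f = t * (si * u * s) := by
  calc (si * u * s) * f = si * u * (s * f * si) * s := by
        simp only [mul_assoc]; rw [h4, mul_one]
    _ = si * (u * us) * (s * t * si) * u * s := by rw [h]; simp only [mul_assoc]
    _ = (si * s) * t * (si * u * s) := by rw [h2, mul_one]; simp only [mul_assoc]
    _ = t * (si * u * s) := by rw [h4, one_mul]

lemma mon2 (c g gi t f : M) (h1 : g * gi = 1) (h2 : gi * g = 1) (h3 : c * f = t * c)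
    (h4 : g * f = t * g) : (c * gi) * t = t * (c * gi) := by
  have h5 : gi * t = f * gi := by
    calc gi * t = gi * (t * g) * gi := by
          simp only [mul_assoc]; rw [h1, mul_one]
      _ = (gi * g) * f * gi := by rw [← h4]; simp only [mul_assoc]
      _ = f * gi := by rw [h2, one_mul]
  calc (c * gi) * t = (c * f) * gi := by rw [mul_assoc, h5, mul_assoc]
    _ = t * (c * gi) := by rw [h3, mul_assoc]

end gen

/-- the operator of a rotation -/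
lemma op_rot (k : ℂ) (hk : ‖k‖ = 1) (h0 : ‖(0 : ℂ)‖ < 1) {H : Type} [NormedAddCommGroup H]
    [NormedSpace ℂ H] (A : H →L[ℂ] H) : (Mob.mk k 0 hk h0).op A = k • A := by
  unfold Mob.op mob
  simp

lemma circ_inf : ∀ n : ℤ, n ≠ 0 → (Circle.exp 1) ^ n ≠ 1 := by
  intro n hn h
  rw [← Circle.exp_zsmul, Circle.exp_eq_one] at h
  obtain ⟨m, hm⟩ := h
  rw [zsmul_eq_mul, mul_one] at hm
  have hm0 : m ≠ 0 := by
    rintro rfl
    apply hn
    have : (n : ℝ) = 0 := by rw [hm]; simp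
    exact_mod_cast this
  have h1 : Real.pi = ((n : ℚ) / (2 * (m : ℚ)) : ℚ) := by
    push_cast
    have hm1 : (m : ℝ) ≠ 0 := by exact_mod_cast hm0
    field_simp
    linarith
  exact irrational_pi ⟨_, h1.symm⟩

/-- the off-diagonal entry of `φ(blk Z B Z)` -/
noncomputable def f12 (φ : Mob) : E →L[ℂ] E :=
  (φ.c * (1 - conj φ.a * φ.a)) • (Ring.inverse (1 - (conj φ.a) • Z) * X *
        Ring.inverse (1 - (conj φ.a) • Z))

lemma key (hCOM : S_COM) (hLEX : S_LEX) (hBLA : S_BLA) (hBLM : S_BLM) (hMOBC : S_MOBC)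
    (S : (E2 →L[ℂ] E2)ˣ) (P B : E →L[ℂ] E)
    (hS : ∀ φ : Mob, ∃ U : E2 →L[ℂ] E2, adjoint U * U = 1 ∧ U * adjoint U = 1 ∧
      φ.op ((S : E2 →L[ℂ] E2) * T * ((S⁻¹ : (E2 →L[ℂ] E2)ˣ) : E2 →L[ℂ] E2)) =
        adjoint U * ((S : E2 →L[ℂ] E2) * T * ((S⁻¹ : (E2 →L[ℂ] E2)ˣ) : E2 →L[ℂ] E2)) * U)
    (hP : ∀ (U : E2 →L[ℂ] E2) (W : (E →L[ℂ] E)ˣ) (C12 C2 : E →L[ℂ] E),
      adjoint U * U = 1 → U * adjoint U = 1 →
      (S : E2 →L[ℂ] E2) * blk (W : E →L[ℂ] E) C12 C2 = U * (S : E2 →L[ℂ] E2) →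
      adjoint (W : E →L[ℂ] E) * P * (W : E →L[ℂ] E) = P ∧ C12 = B * C2 - (W : E →L[ℂ] E) * B)
    (φ : Mob) :
    ∃ W : (E →L[ℂ] E)ˣ, adjoint (W : E →L[ℂ] E) * P * (W : E →L[ℂ] E) = P ∧
      (W : E →L[ℂ] E) * φ.op Z = Z * (W : E →L[ℂ] E) ∧
      (W : E →L[ℂ] E) * (f12 φ + (φ.op Z * B - B * φ.op Z)) =
        (X + Z * B - B * Z) * (W : E →L[ℂ] E) := by
  obtain ⟨U, hU1, hU2, hU⟩ := hS φ
  obtain ⟨b1, b2, b3, b4, b5, b6, b7⟩ := hBLA
  obtain ⟨m1, m2, m3, m4⟩ := hBLM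
  have hconj := (hMOBC E2 T m2).2.2 φ S
  rw [hconj] at hU
  -- the operator C
  have hC : (((S⁻¹ : (E2 →L[ℂ] E2)ˣ) : E2 →L[ℂ] E2) * U * (S : E2 →L[ℂ] E2)) * φ.op T =
      T * (((S⁻¹ : (E2 →L[ℂ] E2)ˣ) : E2 →L[ℂ] E2) * U * (S : E2 →L[ℂ] E2)) :=
    mon1 _ _ _ _ _ _ hU2 (Units.inv_mul S) hU
  -- the lift
  obtain ⟨Cb, hCb⟩ := hLEX.2
  obtain ⟨k, l, r, V, d, γ, -, -, hL, -⟩ := hCb φ
  generalize R k * V * R l = V0 at hL
  obtain ⟨v1, v2, -, -, -, v3⟩ := hL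
  -- the unit C
  have uU : IsUnit U := ⟨⟨U, adjoint U, hU2, hU1⟩, rfl⟩
  obtain ⟨Cu, hCu⟩ : ∃ Cu : (E2 →L[ℂ] E2)ˣ, (Cu : E2 →L[ℂ] E2) =
      ((S⁻¹ : (E2 →L[ℂ] E2)ˣ) : E2 →L[ℂ] E2) * U * (S : E2 →L[ℂ] E2) := by
    obtain ⟨Uu, hUu⟩ := uU
    exact ⟨S⁻¹ * Uu * S, by rw [Units.val_mul, Units.val_mul, hUu]⟩
  -- the unit G
  have g1 : blk V0 (V0 * d) V0 * blk (adjoint V0) (-(d * adjoint V0)) (adjoint V0) = 1 := by
    rw [b1, v2, ← b2]
    congr 1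
    rw [mul_neg, ← mul_assoc]
    exact neg_add_cancel _
  have g2 : blk (adjoint V0) (-(d * adjoint V0)) (adjoint V0) * blk V0 (V0 * d) V0 = 1 := by
    rw [b1, v1, ← b2]
    congr 1
    rw [← mul_assoc, v1, one_mul, neg_mul, mul_assoc, v1, mul_one]
    exact add_neg_cancel _
  let Gu : (E2 →L[ℂ] E2)ˣ := ⟨_, _, g1, g2⟩
  have hD : ((Cu * Gu⁻¹ : (E2 →L[ℂ] E2)ˣ) : E2 →L[ℂ] E2) * T =
      T * ((Cu * Gu⁻¹ : (E2 →L[ℂ] E2)ˣ) : E2 →L[ℂ] E2) := by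
    rw [Units.val_mul]
    refine mon2 _ (Gu : E2 →L[ℂ] E2) _ T (φ.op T) (Units.mul_inv Gu) (Units.inv_mul Gu) ?_ v3
    rw [hCu]
    exact hC
  obtain ⟨A, B0, hA⟩ := hCOM _ hD
  have hCG : (Cu : E2 →L[ℂ] E2) = blk (A * V0) (A * (V0 * d) + B0 * V0) (A * V0) := by
    have h1 : (Cu : E2 →L[ℂ] E2) = ((Cu * Gu⁻¹ : (E2 →L[ℂ] E2)ˣ) : E2 →L[ℂ] E2) * Gu := by
      rw [← Units.val_mul, inv_mul_cancel_right]
    rw [h1, hA]
    exact b1 _ _ _ _ _ _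
  -- the unit W
  let Vu : (E →L[ℂ] E)ˣ := ⟨V0, adjoint V0, v2, v1⟩
  have hW : ((A * Vu : (E →L[ℂ] E)ˣ) : E →L[ℂ] E) = (A : E →L[ℂ] E) * V0 := rfl
  refine ⟨A * Vu, ?_⟩
  rw [hW]
  generalize hW0 : (A : E →L[ℂ] E) * V0 = W0 at *
  generalize (A : E →L[ℂ] E) * (V0 * d) + B0 * V0 = C12 at *
  have hSC : (S : E2 →L[ℂ] E2) * blk W0 C12 W0 = U * (S : E2 →L[ℂ] E2) := by
    rw [← hCG, hCu, ← mul_assoc, ← mul_assoc, Units.mul_inv, one_mul]
  have hP1 := hP U (A * Vu) C12 W0 hU1 hU2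
  rw [hW] at hP1
  obtain ⟨p1, p2⟩ := hP1 hSC
  -- the entries
  have hE : blk W0 C12 W0 * φ.op T = T * blk W0 C12 W0 := by
    rw [← hCG, hCu]
    exact hC
  have hT : T = blk Z X Z := rfl
  rw [hT, m4, b1, b1] at hE
  obtain ⟨e1, e2, -⟩ := b5 _ _ _ _ _ _ hE
  exact ⟨p1, e1, alg_key Z X B W0 C12 (φ.op Z) _ e1 e2 p2⟩

theorem main (hCOM : S_COM) (hORT : S_ORT) (hKN : S_KN) (hDIA : S_DIA) (hFIN : S_FIN)
    (hLEX : S_LEX) (hBLA : S_BLA) (hBLM : S_BLM) (hMOBC : S_MOBC) (hINV : S_INV) : S_NH := by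
  intro S hS
  obtain ⟨P, B, m, hm, hPa, hPm, hP⟩ := hORT S
  have hkey := key hCOM hLEX hBLA hBLM hMOBC S P B hS hP
  -- the rotation
  have h0 : ‖(0 : ℂ)‖ < 1 := by simp
  obtain ⟨W, w1, w2, w3⟩ := hkey ⟨(Circle.exp 1 : Circle), 0, Circle.norm_coe _, h0⟩
  have hf : f12 ⟨(Circle.exp 1 : Circle), 0, Circle.norm_coe _, h0⟩ =
      ((Circle.exp 1 : Circle) : ℂ) • X := by
    unfold f12
    simp
  rw [op_rot] at w2 w3
  rw [hf] at w3
  have w2' : ((Circle.exp 1 : Circle) : ℂ) • ((W : E →L[ℂ] E) * Z) = Z * (W : E →L[ℂ] E) := by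
    rw [← w2, mul_smul_comm]
  obtain ⟨F, l, hl, hF1, hF2⟩ := hKN P m (Circle.exp 1) W hm hPa hPm circ_inf w1 w2'
  have w3' : ((Circle.exp 1 : Circle) : ℂ) • ((W : E →L[ℂ] E) * (X + Z * B - B * Z)) =
      (X + Z * B - B * Z) * (W : E →L[ℂ] E) := by
    rw [← w3, ← mul_smul_comm]
    congr 1
    rw [smul_mul_assoc, mul_smul_comm, ← smul_sub, ← smul_add, add_sub_assoc]
  obtain ⟨ν, y, c, hc, hν, hd, hy, hyn⟩ := hDIA P m (Circle.exp 1) W F l (X + Z * B - B * Z) B hm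
    hPa hPm circ_inf w1 hl hF1 hF2 rfl w3'
  -- the hyperbolic element
  obtain ⟨r, hr0, hr1⟩ : ∃ r : ℝ, 0 < r ∧ r < 1 := ⟨1 / 2, by norm_num, by norm_num⟩
  have hh : ‖(r : ℂ)‖ < 1 := by
    rw [Complex.norm_real, Real.norm_of_nonneg hr0.le]; exact hr1
  obtain ⟨W1, u1, u2, u3⟩ := hkey ⟨1, (r : ℂ), norm_one, hh⟩
  have hu := (hINV (r : ℂ) hh).1
  have g1 := Ring.mul_inverse_cancel _ hu
  have g2 := Ring.inverse_mul_cancel _ hu
  have ho : Mob.op (⟨1, (r : ℂ), norm_one, hh⟩ : Mob) Z =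
      (Z - (r : ℂ) • (1 : E →L[ℂ] E)) * Ring.inverse (1 - (r : ℂ) • Z) := by
    unfold Mob.op mob
    simp only [Complex.conj_ofReal, one_smul]
  have hf2 : f12 ⟨1, (r : ℂ), norm_one, hh⟩ = ((1 - r ^ 2 : ℝ) : ℂ) •
      (Ring.inverse (1 - (r : ℂ) • Z) * X * Ring.inverse (1 - (r : ℂ) • Z)) := by
    unfold f12
    simp only [Complex.conj_ofReal]
    congr 1
    push_cast
    ring
  rw [ho] at u2 u3
  rw [hf2] at u3
  generalize hg : Ring.inverse (1 - (r : ℂ) • Z) = g at *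
  have e1 := alg_comm Z B (1 - (r : ℂ) • Z) g (r : ℂ) rfl g1 g2
  have e2 : (1 - (r : ℂ) ^ 2) = ((1 - r ^ 2 : ℝ) : ℂ) := by push_cast; ring
  rw [e2] at e1
  rw [e1, ← smul_add, ← add_mul, ← mul_add, ← add_sub_assoc] at u3
  obtain ⟨c1, c2⟩ := alg_conj Z (X + Z * B - B * Z) (W1 : E →L[ℂ] E) g F (r : ℂ)
    ((1 - r ^ 2 : ℝ) : ℂ) hF1 g1 g2 u2 u3
  have hN : adjoint (adjoint (F : E →L[ℂ] E) * P * (F : E →L[ℂ] E)) =
      adjoint (F : E →L[ℂ] E) * P * (F : E →L[ℂ] E) := by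
    change star (star (F : E →L[ℂ] E) * P * (F : E →L[ℂ] E)) = _
    rw [star_mul, star_mul, star_star]
    change star (F : E →L[ℂ] E) * (adjoint P * (F : E →L[ℂ] E)) = _
    rw [hPa, ← mul_assoc]
    rfl
  have hWN : adjoint ((F⁻¹ * W1 * F : (E →L[ℂ] E)ˣ) : E →L[ℂ] E) *
      (adjoint (F : E →L[ℂ] E) * P * (F : E →L[ℂ] E)) *
      ((F⁻¹ * W1 * F : (E →L[ℂ] E)ˣ) : E →L[ℂ] E) =
      adjoint (F : E →L[ℂ] E) * P * (F : E →L[ℂ] E) := by
    change star ((F⁻¹ * W1 * F : (E →L[ℂ] E)ˣ) : E →L[ℂ] E) *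
      (star (F : E →L[ℂ] E) * P * (F : E →L[ℂ] E)) *
      ((F⁻¹ * W1 * F : (E →L[ℂ] E)ˣ) : E →L[ℂ] E) = star (F : E →L[ℂ] E) * P * (F : E →L[ℂ] E)
    have u1' : star (W1 : E →L[ℂ] E) * P * (W1 : E →L[ℂ] E) = P := u1
    have h3 : (F : E →L[ℂ] E) * ((F⁻¹ * W1 * F : (E →L[ℂ] E)ˣ) : E →L[ℂ] E) =
        (W1 : E →L[ℂ] E) * (F : E →L[ℂ] E) := by
      rw [← Units.val_mul, ← Units.val_mul]
      congr 1
      group
    have h4 : star ((F⁻¹ * W1 * F : (E →L[ℂ] E)ˣ) : E →L[ℂ] E) * star (F : E →L[ℂ] E) =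
        star (F : E →L[ℂ] E) * star (W1 : E →L[ℂ] E) := by
      rw [← star_mul, h3, star_mul]
    calc star ((F⁻¹ * W1 * F : (E →L[ℂ] E)ˣ) : E →L[ℂ] E) *
          (star (F : E →L[ℂ] E) * P * (F : E →L[ℂ] E)) *
          ((F⁻¹ * W1 * F : (E →L[ℂ] E)ˣ) : E →L[ℂ] E)
        = (star ((F⁻¹ * W1 * F : (E →L[ℂ] E)ˣ) : E →L[ℂ] E) * star (F : E →L[ℂ] E)) * P *
          ((F : E →L[ℂ] E) * ((F⁻¹ * W1 * F : (E →L[ℂ] E)ˣ) : E →L[ℂ] E)) := by
          simp only [mul_assoc]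
      _ = star (F : E →L[ℂ] E) * (star (W1 : E →L[ℂ] E) * P * (W1 : E →L[ℂ] E)) *
          (F : E →L[ℂ] E) := by
          rw [h3, h4]; simp only [mul_assoc]
      _ = star (F : E →L[ℂ] E) * P * (F : E →L[ℂ] E) := by rw [u1']
  have hW2 : ((F⁻¹ * W1 * F : (E →L[ℂ] E)ˣ) : E →L[ℂ] E) =
      ((F⁻¹ : (E →L[ℂ] E)ˣ) : E →L[ℂ] E) * W1 * F := by
    rw [Units.val_mul, Units.val_mul]
  rw [← hg] at c1 c2
  rw [← hW2] at c1 c2
  exact hFIN r ν y c (adjoint (F : E →L[ℂ] E) * P * (F : E →L[ℂ] E))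
    (((F⁻¹ : (E →L[ℂ] E)ˣ) : E →L[ℂ] E) * (X + Z * B - B * Z) * (F : E →L[ℂ] E))
    (F⁻¹ * W1 * F) hr0 hr1 hc hν hN hd hy hyn hWN c1 c2

end Pool.Agent.W202.WH.NH
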